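import Mathlib

/-!
# Triples with three consecutive multiplicatively dependent shifts: there are infinitely many

For every `k ≥ 3` the triple `(2, 2 ^ k - 2, 2 ^ k * (2 ^ k - 2))` is admissible: the third entry is
the product of the second one and a power of the first one, its successor is the square
`(2 ^ k - 1) ^ 2` of the successor of the second entry, and `2 + 2 = 4`, `(2 ^ k - 2) + 2 = 2 ^ k` are
powers of two.
-/

set_option autoImplicit false

namespace Pool.Agent.Results.MP_0e3340_nt.InfinitelyMany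

/-- The triple `(a, b, c)` of integers is multiplicatively dependent: `a ^ r * b ^ s * c ^ t = 1` for
some integers `r, s, t`, not all zero (integral, possibly negative, exponents; powers are taken in
the rational numbers). -/
def MultDependent (a b c : ℤ) : Prop :=
  ∃ r s t : ℤ, ¬ (r = 0 ∧ s = 0 ∧ t = 0) ∧ (a : ℚ) ^ r * (b : ℚ) ^ s * (c : ℚ) ^ t = 1

/-- The triple `(a, b, c)` is admissible: the entries are pairwise distinct integers larger than `1`,
not both `2` and `8` occur among them, and `(a, b, c)`, `(a + 1, b + 1, c + 1)`, `(a + 2, b + 2, c + 2)`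
are multiplicatively dependent. -/
def Admissible (a b c : ℤ) : Prop :=
  (1 < a ∧ 1 < b ∧ 1 < c) ∧ (a ≠ b ∧ a ≠ c ∧ b ≠ c) ∧ ¬ (({2, 8} : Set ℤ) ⊆ {a, b, c}) ∧
    MultDependent a b c ∧ MultDependent (a + 1) (b + 1) (c + 1) ∧ MultDependent (a + 2) (b + 2) (c + 2)

/-- The member of the family with parameter `k`. -/
def fam (k : ℕ) : ℤ × ℤ × ℤ := (2, 2 ^ k - 2, 2 ^ k * (2 ^ k - 2))

theorem fam_admissible (k : ℕ) (hk : 3 ≤ k) :
    2 < (2 : ℤ) ^ k - 2 ∧ (2 : ℤ) ^ k - 2 < 2 ^ k * (2 ^ k - 2) ∧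
      Admissible 2 (2 ^ k - 2) (2 ^ k * (2 ^ k - 2)) := by
  have h8 : (8 : ℤ) ≤ 2 ^ k := by
    calc (8 : ℤ) = 2 ^ 3 := by norm_num
      _ ≤ 2 ^ k := pow_le_pow_right₀ (by norm_num) hk
  have h1 : (2 : ℤ) < 2 ^ k - 2 := by linarith
  have h2 : (2 : ℤ) ^ k - 2 < 2 ^ k * (2 ^ k - 2) := by nlinarith
  have hne : (2 : ℤ) ^ k - 2 ≠ 8 := by
    intro h
    have h10 : (2 : ℤ) ^ k = 10 := by linarith
    have h16 : (2 : ℤ) ^ k < 2 ^ 4 := by rw [h10]; norm_num
    have hk4 : k < 4 := (pow_lt_pow_iff_right₀ (by norm_num : (1 : ℤ) < 2)).1 h16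
    have : k = 3 := by omega
    subst this
    norm_num at h10
  have hne' : (2 : ℤ) ^ k * (2 ^ k - 2) ≠ 8 := by nlinarith
  refine ⟨h1, h2, ⟨by norm_num, by linarith, by nlinarith⟩, ⟨by linarith, by nlinarith, by linarith⟩, ?_,
    ?_, ?_, ?_⟩
  · intro hsub
    have h8' : (8 : ℤ) ∈ ({2, 2 ^ k - 2, 2 ^ k * (2 ^ k - 2)} : Set ℤ) := hsub (by simp)
    simp only [Set.mem_insert_iff, Set.mem_singleton_iff] at h8'
    rcases h8' with h | h | h
    · norm_num at h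
    · exact hne h.symm
    · exact hne' h.symm
  · refine ⟨k, 1, -1, by simp, ?_⟩
    have hb : (((2 : ℤ) ^ k - 2 : ℤ) : ℚ) ≠ 0 := by
      exact_mod_cast (by linarith : (0 : ℤ) < 2 ^ k - 2).ne'
    have hk0 : ((2 : ℚ) ^ k) ≠ 0 := by positivity
    push_cast at hb ⊢
    rw [zpow_natCast, zpow_one, zpow_neg, zpow_one]
    field_simp
  · refine ⟨0, 2, -1, by simp, ?_⟩
    have hb : (((2 : ℤ) ^ k - 1 : ℤ) : ℚ) ≠ 0 := by
      exact_mod_cast (by linarith : (0 : ℤ) < 2 ^ k - 1).ne'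
    have e1 : ((2 : ℤ) ^ k - 2 + 1) = 2 ^ k - 1 := by ring
    have e2 : ((2 : ℤ) ^ k * (2 ^ k - 2) + 1) = (2 ^ k - 1) ^ 2 := by ring
    rw [e1, e2]
    push_cast at hb ⊢
    rw [zpow_neg, zpow_one, one_mul]
    exact mul_inv_cancel₀ (pow_ne_zero 2 hb)
  · refine ⟨k, -2, 0, by simp, ?_⟩
    have e1 : ((2 : ℤ) ^ k - 2 + 2) = 2 ^ k := by ring
    rw [e1]
    push_cast
    have h4 : (4 : ℚ) = 2 ^ 2 := by norm_num
    have h5 : ((2 : ℚ) ^ k) ^ (-2 : ℤ) = (((2 : ℚ) ^ k) ^ 2)⁻¹ := by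
      rw [zpow_neg]
      rfl
    rw [h5, zpow_zero, mul_one, zpow_natCast, h4, ← pow_mul, ← pow_mul, mul_comm 2 k]
    exact mul_inv_cancel₀ (pow_ne_zero _ (by norm_num))

/-- There are infinitely many admissible triples `(a, b, c)` with `a < b < c`. -/
theorem result : {t : ℤ × ℤ × ℤ | t.1 < t.2.1 ∧ t.2.1 < t.2.2 ∧ Admissible t.1 t.2.1 t.2.2}.Infinite := by
  have hinj : Function.Injective (fun k : ℕ => fam (k + 3)) := by
    intro m n h
    have h' : (2 : ℤ) ^ (m + 3) - 2 = 2 ^ (n + 3) - 2 := congrArg (fun t : ℤ × ℤ × ℤ => t.2.1) h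
    have h'' : (2 : ℤ) ^ (m + 3) = 2 ^ (n + 3) := by linarith
    have := (pow_right_injective₀ (by norm_num : (0 : ℤ) < 2) (by norm_num : (2 : ℤ) ≠ 1)) h''
    omega
  refine (Set.infinite_range_of_injective hinj).mono ?_
  rintro _ ⟨k, rfl⟩
  obtain ⟨h1, h2, h3⟩ := fam_admissible (k + 3) (by omega)
  exact ⟨h1, h2, h3⟩

end Pool.Agent.Results.MP_0e3340_nt.InfinitelyMany
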